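import Pool.Agent.W243.TD.Use
import Pool.Agent.H340R2.LW
import Pool.Agent.W242.GG.Count

/-!
# Families of polynomials through the five numbers

`π + e` and `π e` are the member `P = 1` of the second item, `e ^ e` (`P = X`) belongs to the third,
`π ^ e` (`P = X`) to the fourth and `π ^ π` (`P = X`) to the fifth one.
-/

set_option autoImplicit false

namespace Pool.Agent.Results.MP_a49cf6_nt.Families

open Polynomial Module
open Pool.Agent.W243.TD

theorem dep_al {t w : ℂ} (ht : Transcendental ℚ t) (h : ¬ AlgebraicIndependent ℚ ![t, w]) :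
    Al t w := by
  by_contra hb
  exact h (Pool.Agent.W242.GG.algInd_pair ht hb)

theorem span_family2 {t y : ℂ} (ht : Transcendental ℚ t) (hy : y ≠ 0) (n : ℕ) (S : Set ℚ[X])
    (hS : ∀ P ∈ S, P.natDegree ≤ n ∧ Al t (Complex.exp (y * aeval t P))) :
    (finrank ℚ (Submodule.span ℚ S) + 1) ^ 2 ≤ 8 * n + 7 := by
  have h1 : Submodule.span ℚ S = Submodule.span ℚ (Set.range (fun s : S => (s : ℚ[X]))) := by
    rw [Subtype.range_coe]
  apply num2
  intro m
  apply fam2 t y ht hy n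
  · rw [h1]; exact deg_span (fun s => (hS s s.2).1)
  · rw [h1]; exact al_exp_poly (fun s => (hS s s.2).2)

theorem span_family1 {t y : ℂ} (ht : Transcendental ℚ t) (hy : y ≠ 0) (hy' : Al t y) (n : ℕ)
    (S : Set ℚ[X]) (hS : ∀ P ∈ S, P.natDegree ≤ n ∧ Al t (Complex.exp (y * aeval t P))) :
    finrank ℚ (Submodule.span ℚ S) ^ 2 ≤ 4 * n + 1 := by
  have h1 : Submodule.span ℚ S = Submodule.span ℚ (Set.range (fun s : S => (s : ℚ[X]))) := by
    rw [Subtype.range_coe]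
  apply fam1 t y ht hy hy' n
  · rw [h1]; exact deg_span (fun s => (hS s s.2).1)
  · rw [h1]; exact al_exp_poly (fun s => (hS s s.2).2)

theorem real_dep {a b : ℝ} (h : ¬ AlgebraicIndependent ℚ ![a, b]) :
    ¬ AlgebraicIndependent ℚ ![(a : ℂ), (b : ℂ)] := by
  intro h1
  apply h
  have h2 : ![(a : ℂ), (b : ℂ)] = (Algebra.algHom ℚ ℝ ℂ) ∘ ![a, b] := by
    funext i
    fin_cases i <;> rfl
  rw [h2] at h1
  exact (AlgHom.algebraicIndependent_iff (Algebra.algHom ℚ ℝ ℂ)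
    (algebraMap ℝ ℂ).injective).1 h1

theorem real_aeval (t : ℝ) (P : ℚ[X]) : ((aeval t P : ℝ) : ℂ) = aeval (t : ℂ) P := by
  have := Polynomial.aeval_algebraMap_apply ℂ t P
  exact this.symm

theorem real_al {t w : ℝ} (ht : Transcendental ℚ (t : ℂ)) (h : ¬ AlgebraicIndependent ℚ ![t, w]) :
    Al (t : ℂ) (w : ℂ) := dep_al ht (real_dep h)

theorem rpow_eq {b x : ℝ} (hb : 0 < b) :
    ((b ^ x : ℝ) : ℂ) = Complex.exp ((Real.log b : ℝ) * (x : ℂ)) := by
  rw [Real.rpow_def_of_pos hb]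
  push_cast
  rfl

theorem result (n : ℕ) :
    (∀ t y : ℂ, Transcendental ℚ t → y ≠ 0 →
      (finrank ℚ (Submodule.span ℚ {P : ℚ[X] | P.natDegree ≤ n ∧
        ¬ AlgebraicIndependent ℚ ![t, Complex.exp (y * aeval t P)]}) + 1) ^ 2 ≤ 8 * n + 7 ∧
      (¬ AlgebraicIndependent ℚ ![t, y] →
        finrank ℚ (Submodule.span ℚ {P : ℚ[X] | P.natDegree ≤ n ∧
          ¬ AlgebraicIndependent ℚ ![t, Complex.exp (y * aeval t P)]}) ^ 2 ≤ 4 * n + 1)) ∧
    -- `π + e`, `π e`: `P = 1`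
    finrank ℚ (Submodule.span ℚ {P : ℚ[X] | P.natDegree ≤ n ∧
      ¬ (Transcendental ℚ (Real.pi + Real.exp 1 ^ aeval Real.pi P) ∧
        Transcendental ℚ (Real.pi * Real.exp 1 ^ aeval Real.pi P))}) ^ 2 ≤ 4 * n + 1 ∧
    -- `e ^ e`: `P = X`
    finrank ℚ (Submodule.span ℚ {P : ℚ[X] | P.natDegree ≤ n ∧
      ¬ AlgebraicIndependent ℚ ![Real.exp 1, Real.exp 1 ^ aeval (Real.exp 1) P]}) ^ 2 ≤
        4 * n + 1 ∧
    -- `π ^ e`: `P = X`
    (finrank ℚ (Submodule.span ℚ {P : ℚ[X] | P.natDegree ≤ n ∧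
      ¬ AlgebraicIndependent ℚ ![Real.exp 1, Real.pi ^ aeval (Real.exp 1) P]}) + 1) ^ 2 ≤
        8 * n + 7 ∧
    -- `π ^ π`: `P = X`
    (finrank ℚ (Submodule.span ℚ {P : ℚ[X] | P.natDegree ≤ n ∧
      ¬ AlgebraicIndependent ℚ ![Real.pi, Real.pi ^ aeval Real.pi P]}) + 1) ^ 2 ≤ 8 * n + 7 := by
  have hpi : Transcendental ℚ ((Real.pi : ℝ) : ℂ) :=
    Pool.Agent.H340R2.LW.transcendental_pi_complex
  have he : Transcendental ℚ ((Real.exp 1 : ℝ) : ℂ) := by
    have := Pool.Agent.H340R2.LW.transcendental_exp_one_complex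
    simpa using this
  have hlog : ((Real.log Real.pi : ℝ) : ℂ) ≠ 0 := by
    have : 0 < Real.log Real.pi := Real.log_pos (by linarith [Real.pi_gt_three])
    exact_mod_cast this.ne'
  refine ⟨?_, ?_, ?_, ?_, ?_⟩
  · intro t y ht hy
    refine ⟨span_family2 ht hy n _ ?_, fun hy' => span_family1 ht hy (dep_al ht hy') n _ ?_⟩
    · rintro P ⟨h2, h3⟩
      exact ⟨h2, dep_al ht h3⟩
    · rintro P ⟨h2, h3⟩
      exact ⟨h2, dep_al ht h3⟩
  · refine span_family1 hpi one_ne_zero isAlgebraic_one n _ ?_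
    rintro P ⟨h2, h3⟩
    refine ⟨h2, ?_⟩
    rw [one_mul]
    have e1 : Complex.exp (aeval ((Real.pi : ℝ) : ℂ) P) =
        ((Real.exp 1 ^ aeval Real.pi P : ℝ) : ℂ) := by
      rw [rpow_eq (Real.exp_pos 1), Real.log_exp, real_aeval]
      simp
    rw [e1]
    have hp : Al (Real.pi : ℂ) ((Real.pi : ℝ) : ℂ) := isAlgebraic_algebraMap
      (⟨(Real.pi : ℂ), IntermediateField.mem_adjoin_simple_self ℚ _⟩ :
        IntermediateField.adjoin ℚ {(Real.pi : ℂ)})
    have up : ∀ x : ℝ, IsAlgebraic ℚ x → Al (Real.pi : ℂ) (x : ℂ) := fun x hx =>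
      (hx.algebraMap (A := ℂ)).extendScalars (algebraMap ℚ _).injective
    rw [not_and_or] at h3
    rcases h3 with h3 | h3
    · have h4 := up _ (not_not.1 h3)
      have h5 : Al (Real.pi : ℂ) _ := h4.sub hp
      have e2 : ((Real.pi + Real.exp 1 ^ aeval Real.pi P : ℝ) : ℂ) - ((Real.pi : ℝ) : ℂ) =
          ((Real.exp 1 ^ aeval Real.pi P : ℝ) : ℂ) := by
        rw [← Complex.ofReal_sub, add_sub_cancel_left]
      rwa [e2] at h5
    · have h4 := up _ (not_not.1 h3)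
      have h5 : Al (Real.pi : ℂ) _ := h4.mul hp.inv
      have e2 : ((Real.pi * Real.exp 1 ^ aeval Real.pi P : ℝ) : ℂ) * ((Real.pi : ℝ) : ℂ)⁻¹ =
          ((Real.exp 1 ^ aeval Real.pi P : ℝ) : ℂ) := by
        rw [← Complex.ofReal_inv, ← Complex.ofReal_mul, mul_comm, ← mul_assoc,
          inv_mul_cancel₀ Real.pi_ne_zero, one_mul]
      rwa [e2] at h5
  · refine span_family1 he one_ne_zero isAlgebraic_one n _ ?_
    rintro P ⟨h2, h3⟩
    refine ⟨h2, ?_⟩
    have h4 := real_al he h3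
    rwa [rpow_eq (Real.exp_pos 1), Real.log_exp, real_aeval, Complex.ofReal_one] at h4
  · refine span_family2 he hlog n _ ?_
    rintro P ⟨h2, h3⟩
    refine ⟨h2, ?_⟩
    have h4 := real_al he h3
    rwa [rpow_eq Real.pi_pos, real_aeval] at h4
  · refine span_family2 hpi hlog n _ ?_
    rintro P ⟨h2, h3⟩
    refine ⟨h2, ?_⟩
    have h4 := real_al hpi h3
    rwa [rpow_eq Real.pi_pos, real_aeval] at h4

end Pool.Agent.Results.MP_a49cf6_nt.Families
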