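import Pool.Agent.W243.TD.Rat
import Pool.Agent.W242.GG.Count

/-!
# Families of rational functions through the five numbers

`e ^ R(π)` (`R = 1`: `π + e`, `π e`), `e ^ R(e)` (`R = X`: `e ^ e`), `π ^ R(e)` (`R = X`: `π ^ e`),
`π ^ R(π)` (`R = X`: `π ^ π`), for rational functions `R` of degree at most `D`.
-/

set_option autoImplicit false

namespace Pool.Agent.Results.MP_a49cf6_nt.RationalFunctions

open Polynomial Module
open Pool.Agent.W243.TD

theorem dep_al {t w : ℂ} (ht : Transcendental ℚ t) (h : ¬ AlgebraicIndependent ℚ ![t, w]) :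
    Al t w := by
  by_contra hb
  exact h (Pool.Agent.W242.GG.algInd_pair ht hb)

theorem real_dep {a b : ℝ} (h : ¬ AlgebraicIndependent ℚ ![a, b]) :
    ¬ AlgebraicIndependent ℚ ![(a : ℂ), (b : ℂ)] := by
  intro h1
  apply h
  have h2 : ![(a : ℂ), (b : ℂ)] = (Algebra.algHom ℚ ℝ ℂ) ∘ ![a, b] := by
    funext i
    fin_cases i <;> rfl
  rw [h2] at h1
  exact (AlgHom.algebraicIndependent_iff (Algebra.algHom ℚ ℝ ℂ)
    (algebraMap ℝ ℂ).injective).1 h1

theorem real_aeval (t : ℝ) (P : ℚ[X]) : ((aeval t P : ℝ) : ℂ) = aeval (t : ℂ) P := by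
  have := Polynomial.aeval_algebraMap_apply ℂ t P
  exact this.symm

theorem real_al {t w : ℝ} (ht : Transcendental ℚ (t : ℂ)) (h : ¬ AlgebraicIndependent ℚ ![t, w]) :
    Al (t : ℂ) (w : ℂ) := dep_al ht (real_dep h)

theorem rpow_eq {b x : ℝ} (hb : 0 < b) :
    ((b ^ x : ℝ) : ℂ) = Complex.exp ((Real.log b : ℝ) * (x : ℂ)) := by
  rw [Real.rpow_def_of_pos hb]
  push_cast
  rfl

/-- `t = π` or `t = e`; `R_i = P_i / Q_i` rational functions of degree at most `D` -/
theorem result (t : ℝ) (ht : t = Real.pi ∨ t = Real.exp 1) (D N : ℕ) (hD : 1 ≤ D)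
    (P Q : Fin N → ℚ[X])
    (hP : ∀ i, (P i).natDegree ≤ D) (hQ : ∀ i, (Q i).natDegree ≤ D) (hQ0 : ∀ i, Q i ≠ 0)
    (hli : LinearIndependent ℚ (fun i => aeval t (P i) / aeval t (Q i))) :
    ((∀ i, ¬ AlgebraicIndependent ℚ ![t, Real.exp (aeval t (P i) / aeval t (Q i))]) →
      N ≤ 4 * D) ∧
    ∀ b : ℝ, 0 < b → b ≠ 1 →
      (∀ i, ¬ AlgebraicIndependent ℚ ![t, b ^ (aeval t (P i) / aeval t (Q i))]) →
      N ≤ 8 * D - 2 := by
  have ht' : Transcendental ℚ (t : ℂ) := by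
    rcases ht with rfl | rfl
    · exact Pool.Agent.H340R2.LW.transcendental_pi_complex
    · have h1 := Pool.Agent.H340R2.LW.transcendental_exp_one_complex
      rwa [← Complex.ofReal_one, ← Complex.ofReal_exp] at h1
  have hz : ∀ i, ((aeval t (P i) / aeval t (Q i) : ℝ) : ℂ) =
      aeval (t : ℂ) (P i) / aeval (t : ℂ) (Q i) := by
    intro i
    rw [Complex.ofReal_div, real_aeval, real_aeval]
  have hli' : LinearIndependent ℚ
      (fun i => aeval (t : ℂ) (P i) / aeval (t : ℂ) (Q i)) := by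
    have h1 : LinearIndependent ℚ (fun i => ((aeval t (P i) / aeval t (Q i) : ℝ) : ℂ)) :=
      hli.map' (Algebra.algHom ℚ ℝ ℂ).toLinearMap
        (LinearMap.ker_eq_bot.2 (algebraMap ℝ ℂ).injective)
    have h2 : (fun i => ((aeval t (P i) / aeval t (Q i) : ℝ) : ℂ)) =
        (fun i => aeval (t : ℂ) (P i) / aeval (t : ℂ) (Q i)) := funext hz
    rwa [h2] at h1
  refine ⟨fun he => ?_, fun b hb hb1 he => ?_⟩
  · refine (rat_list' ht' one_ne_zero hD P Q hP hQ hQ0 hli' ?_).2 isAlgebraic_one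
    intro i
    have h1 := real_al ht' (he i)
    rwa [Complex.ofReal_exp, hz i, ← one_mul (_ / _)] at h1
  · have hlog : ((Real.log b : ℝ) : ℂ) ≠ 0 := by
      have : Real.log b ≠ 0 := Real.log_ne_zero_of_pos_of_ne_one hb hb1
      exact_mod_cast this
    refine (rat_list' ht' hlog hD P Q hP hQ hQ0 hli' ?_).1
    intro i
    have h1 := real_al ht' (he i)
    rwa [rpow_eq hb, hz i] at h1

end Pool.Agent.Results.MP_a49cf6_nt.RationalFunctions
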